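import Pool.Agent.PFC.StmtsB4b

/-!
Squad PFC, block B4b, row QRT: `Ret` for tensor products.
-/

open scoped BigOperators TensorProduct

noncomputable section

namespace Pool.Agent.PFC.H6

theorem tmul_ne {F A B : Type} [Field F] [AddCommGroup A] [Module F A] [AddCommGroup B]
    [Module F B] {a : A} {b : B} (ha : a ≠ 0) (hb : b ≠ 0) : a ⊗ₜ[F] b ≠ 0 := by
  obtain ⟨f, hf⟩ := Module.Projective.exists_dual_eq_one F ha
  obtain ⟨g, hg⟩ := Module.Projective.exists_dual_eq_one F hb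
  intro h
  have h1 : (TensorProduct.lid F F) ((TensorProduct.map f g) (a ⊗ₜ[F] b)) = 0 := by
    rw [h, map_zero, map_zero]
  rw [TensorProduct.map_tmul, TensorProduct.lid_tmul, hf, hg] at h1
  simp at h1

theorem qrt : QrtStmt := by
  intro F V _ _
  refine ⟨?_, ?_⟩
  · rintro X Y ⟨π, h1, h2, h3, h4, h5⟩ ⟨π', k1, k2, k3, k4, k5⟩
    refine ⟨π ⊗ₜ[F] π', ?_, tmul_ne h2 k2, ?_, ?_, ?_⟩
    · change (π ⊗ₜ[F] π') * (π ⊗ₜ[F] π') = π ⊗ₜ[F] π'
      rw [Algebra.TensorProduct.tmul_mul_tmul, h1, k1]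
    · intro v
      change (X.ι v ⊗ₜ[F] Y.ι v) * (π ⊗ₜ[F] π') = π ⊗ₜ[F] π'
      rw [Algebra.TensorProduct.tmul_mul_tmul, h3, k3]
    · intro v
      change (π ⊗ₜ[F] π') * (X.ι v ⊗ₜ[F] Y.ι v) = π ⊗ₜ[F] π'
      rw [Algebra.TensorProduct.tmul_mul_tmul, h4, k4]
    · have key : ∀ a : X.A ⊗[F] Y.A,
          ∃ c : F, (π ⊗ₜ[F] π') * a * (π ⊗ₜ[F] π') = c • (π ⊗ₜ[F] π') := by
        intro a
        induction a using TensorProduct.induction_on with
        | zero => exact ⟨0, by rw [mul_zero, zero_mul, zero_smul]⟩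
        | tmul x y =>
          obtain ⟨c, hc⟩ := h5 x
          obtain ⟨d, hd⟩ := k5 y
          refine ⟨c * d, ?_⟩
          rw [Algebra.TensorProduct.tmul_mul_tmul, Algebra.TensorProduct.tmul_mul_tmul, hc, hd,
            TensorProduct.smul_tmul_smul]
        | add x y hx hy =>
          obtain ⟨c, hc⟩ := hx
          obtain ⟨d, hd⟩ := hy
          exact ⟨c + d, by rw [mul_add, add_mul, hc, hd, add_smul]⟩
      exact key
  · have k1 : ∀ a : F, ∃ c : F, (1 : F) * a * 1 = c • (1 : F) := by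
      intro a
      exact ⟨a, by rw [one_mul, mul_one, smul_eq_mul, mul_one]⟩
    refine ⟨(1 : F), ?_, (one_ne_zero : (1 : F) ≠ 0), ?_, ?_, k1⟩
    · change (1 : F) * 1 = 1
      rw [mul_one]
    · intro v
      change (1 : F) * 1 = 1
      rw [mul_one]
    · intro v
      change (1 : F) * 1 = 1
      rw [mul_one]

end Pool.Agent.PFC.H6
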