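import Pool.Agent.PFC.StmtsB4b
import Pool.Agent.PFC.B4.Key

/-!
Squad PFC, block B4b, row QLB: the image of a local idempotent in a Brauer quotient.
-/

open scoped BigOperators TensorProduct

noncomputable section

namespace Pool.Agent.PFC.H6

section kill

variable {F H M : Type} [Field F] [Group H] [AddCommGroup M] [Module F M]

/-- an invariant functional kills the Brauer kernel -/
theorem kill_BK {ℓ : ℕ} [Fact ℓ.Prime] [CharP F ℓ] [Finite H]
    {ρ : H →* (M →ₗ[F] M)} (P : Subgroup H) (hP : IsPGroup ℓ P) (φ : M →ₗ[F] F)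
    (hφ : ∀ h m, φ (ρ h m) = φ m) {m : M} (hm : m ∈ BK ρ P) : φ m = 0 := by
  classical
  unfold BK at hm
  induction hm using Submodule.span_induction with
  | mem n hn =>
    obtain ⟨P', S, x, hlt, hS, hx, rfl⟩ := hn
    have h1 : ∀ y ∈ S, φ (ρ y x) = φ x := fun y _ => hφ y x
    rw [map_sum, Finset.sum_congr rfl h1, Finset.sum_const]
    have hdvd : ℓ ∣ S.card := by
      have hc := card_tv P' P hlt.le S hS
      obtain ⟨k, hk⟩ := (IsPGroup.iff_card).1 hP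
      have hdiv : S.card ∣ ℓ ^ k := ⟨_, by rw [← hk]; exact hc.symm⟩
      obtain ⟨j, -, hj⟩ := (Nat.dvd_prime_pow (Fact.out : ℓ.Prime)).1 hdiv
      rcases Nat.eq_zero_or_pos j with h0 | h0
      · exfalso
        rw [h0, pow_zero] at hj
        rw [hj, one_mul] at hc
        exact hlt.ne (Subgroup.eq_of_le_of_card_ge hlt.le hc.ge)
      · rw [hj]
        exact dvd_pow_self ℓ h0.ne'
    obtain ⟨d, hd⟩ := hdvd
    rw [hd, mul_smul, nsmul_eq_mul, CharP.cast_eq_zero, zero_mul]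
  | zero => exact map_zero _
  | add a b _ _ ha hb => rw [map_add, ha, hb, add_zero]
  | smul r a _ ha => rw [map_smul, ha, smul_zero]

end kill

section alg

variable {F V A : Type} [Field F] [Group V] [Ring A] [Algebra F A]

theorem cj_app (α : V →* A) (v : V) (a : A) : cj F α v a = α v * (a * α v⁻¹) := rfl

theorem cj_mul (α : V →* A) (v : V) (a b : A) : cj F α v (a * b) = cj F α v a * cj F α v b := by
  have h : α v⁻¹ * α v = 1 := by rw [← map_mul, inv_mul_cancel, map_one]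
  rw [cj_app, cj_app, cj_app]
  calc α v * (a * b * α v⁻¹) = α v * (a * 1 * (b * α v⁻¹)) := by
        rw [mul_one, mul_assoc]
    _ = α v * (a * (α v⁻¹ * α v) * (b * α v⁻¹)) := by rw [h]
    _ = α v * (a * α v⁻¹) * (α v * (b * α v⁻¹)) := by simp only [mul_assoc]

theorem cj_one' (α : V →* A) (v : V) : cj F α v 1 = 1 := by
  rw [cj_app, one_mul, ← map_mul, mul_inv_cancel, map_one]

theorem fx_one (α : V →* A) (Q : Subgroup V) : (1 : A) ∈ Fx (cj F α) Q :=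
  fun v _ => cj_one' α v

theorem fx_mul (α : V →* A) (Q : Subgroup V) {a b : A} (ha : a ∈ Fx (cj F α) Q)
    (hb : b ∈ Fx (cj F α) Q) : a * b ∈ Fx (cj F α) Q := by
  intro v hv
  rw [cj_mul, ha v hv, hb v hv]

theorem fx_pow (α : V →* A) (Q : Subgroup V) {a : A} (ha : a ∈ Fx (cj F α) Q) (n : ℕ) :
    a ^ n ∈ Fx (cj F α) Q := by
  induction n with
  | zero =>
    rw [pow_zero]
    exact fx_one α Q
  | succ n ih =>
    rw [pow_succ]
    exact fx_mul α Q ih ha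

theorem fx_top (α : V →* A) (Q : Subgroup V) {a : A} (ha : a ∈ Fx (cj F α) ⊤) :
    a ∈ Fx (cj F α) Q := fun v _ => ha v (Subgroup.mem_top v)

end alg

theorem qlb (hQ : QkeStmt) (hC : CmpStmt) : QlbStmt := by
  intro ℓ _ F V _ _ _ _ X Y R b j β s hV hX hb hj hβ
  have hPT : IsPGroup ℓ (⊤ : Subgroup V) := hV.to_subgroup ⊤
  have hPR : IsPGroup ℓ R := hV.to_subgroup R
  obtain ⟨q1, q2, q3⟩ := hQ ℓ F V X.A Y.A (cj F X.ι) (cj F Y.ι) R β s hV hβ.toBrS
  -- the key identity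
  have key : ∀ x ∈ Fx (cj F X.ι) ⊤, b (s (β x)) = b x := by
    intro x hx
    have h1 : x - s (β x) ∈ BK (cj F X.ι) R := q3 x (fx_top X.ι R hx)
    have h2 : x - s (β x) ∈ Fx (cj F X.ι) ⊤ := by
      intro v hv
      rw [map_sub, hx v hv, ← hβ.es, ← hβ.eb, hx v hv]
    have h3 : x - s (β x) ∈ BK (cj F X.ι) ⊤ :=
      hC ℓ F V X.A (cj F X.ι) _ hX R ⊤ hPT le_top _ h2 h1
    have h4 := kill_BK ⊤ hPT b hb.inv h3
    rw [map_sub, sub_eq_zero] at h4
    exact h4.symm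
  have sfx : ∀ y ∈ Fx (cj F Y.ι) ⊤, s y ∈ Fx (cj F X.ι) ⊤ := by
    intro y hy v hv
    rw [← hβ.es, hy v hv]
  have bfx : ∀ x ∈ Fx (cj F X.ι) ⊤, β x ∈ Fx (cj F Y.ι) ⊤ := by
    intro x hx v hv
    rw [← hβ.eb, hx v hv]
  have b1 : β 1 = 1 := by
    have h := hβ.cov 1
    rw [X.ι.map_one, Y.ι.map_one] at h
    exact h
  have bmul : ∀ x ∈ Fx (cj F X.ι) ⊤, ∀ y ∈ Fx (cj F X.ι) ⊤, β (x * y) = β x * β y :=
    fun x hx y hy => hβ.mul x (fx_top X.ι R hx) y (fx_top X.ι R hy)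
  have bpow : ∀ x ∈ Fx (cj F X.ι) ⊤, ∀ n : ℕ, β (x ^ n) = β x ^ n := by
    intro x hx n
    induction n with
    | zero => rw [pow_zero, pow_zero, b1]
    | succ n ih => rw [pow_succ, pow_succ, bmul _ (fx_pow X.ι ⊤ hx n) _ hx, ih]
  refine ⟨b ∘ₗ s, ⟨?_, ?_, ?_⟩, ?_, ⟨?_, ?_, ?_, ?_⟩⟩
  · rw [LinearMap.comp_apply, ← b1, key 1 (fx_one X.ι ⊤), hb.one]
  · intro x hx y hy
    have h := key (s x * s y) (fx_mul X.ι ⊤ (sfx x hx) (sfx y hy))
    rw [bmul _ (sfx x hx) _ (sfx y hy), hβ.bs, hβ.bs, hb.mul _ (sfx x hx) _ (sfx y hy)] at h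
    exact h
  · intro v a
    rw [LinearMap.comp_apply, LinearMap.comp_apply, hβ.es, hb.inv]
  · intro x hx
    exact key x hx
  · exact bfx j hj.fx
  · rw [← bmul _ hj.fx _ hj.fx, hj.id]
  · rw [LinearMap.comp_apply, key j hj.fx, hj.bj]
  · intro y hy h0
    have hs := sfx y hy
    have e1 : β (j * s y * j) = β j * y * β j := by
      rw [bmul _ (fx_mul X.ι ⊤ hj.fx hs) _ hj.fx, bmul _ hj.fx _ hs, hβ.bs]
    have hz : j * s y * j ∈ Fx (cj F X.ι) ⊤ := fx_mul X.ι ⊤ (fx_mul X.ι ⊤ hj.fx hs) hj.fx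
    have h1 : b (j * s y * j) = 0 := by
      rw [← key _ hz, e1]
      exact h0
    obtain ⟨n, hn⟩ := hj.nil (s y) hs h1
    refine ⟨n, ?_⟩
    rw [← e1, ← bpow _ hz, hn, map_zero]

end Pool.Agent.PFC.H6
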